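import Mathlib
import Pool.Agent.T2H30.DG.Down

/-!
# Tempered places of degree one, at every scale: `GL_3` and `U_3`

Let `π` be a unitary cuspidal automorphic representation of `GL_3` over a number field `K` (all of them are globally
generic), with Satake parameters `α_{1,v}, α_{2,v}, α_{3,v}`, `a_v = ∑_i α_{i,v}`, for `v ∉ S`. We show: for every
`c < 1/2`, every `λ > 0` and **all** large `X`,

  `∑_{X^{1-λ} ≤ N v ≤ X, N v prime} max(0, 1 - |a_v|²) ≥ X^c`,

so that there are at least `X^c` places `v` with **`N v` a prime number**, `X^{1-λ} ≤ N v ≤ X`, such that `π_v` is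
tempered (and `|a_v| < 1`). The same holds for `c < Re ρ` if `ρ` is a zero or a pole, not real, of `L^S(s, π, Ad)`.

If `K/F` is Galois, a place `v` of prime norm, not one of the finitely many ramified ones, lies above a place of `F`
which splits completely in `K`, and we get results on the representations of groups over `F`, among them the
quasi-split unitary groups `U_3(K/F)`, `[K : F] = 2`: if `Π` is a globally generic cuspidal automorphic representation
of `U_3(K/F)` (or a cuspidal one of `GL_3` over `F`, `K/F` Galois) with cuspidal base change `π` to `GL_3` over `K`,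
then for all large `X` at least `X^c` places `v` of `F` with `N v` prime, `X^{1-λ} ≤ N v ≤ X`, **split completely in
`K`** and `Π_v` is tempered.

Earlier results at every scale (`TemperedEveryScaleGL3`) concern prime powers `(N v)^k` over all places and all
`k ≥ 1`. They leave open that, for a given `X`, all that is found are squares of primes: the places of degree two over
`ℚ` (there are about `X^{1/2} / log X` of them, more than the `X^c` found there), and the squares `k = 2` of the places
of norm `≤ X^{1/2}`. Here the sum is over `k = 1` and places of degree one.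

The structure `AdjointGL3` (from `TemperedEveryScaleGL3`) lists what is used of `π`; all of it is known for every
unitary cuspidal `π` on `GL_3`. What is used of the fields (the prime number theorem) is proved.

The proof. Write `log L^S(s, π, Ad) = ∑ d_{v,k} (N v)^{-ks}`, `d_{v,k} ≥ -1/k`. Suppose that the negative coefficients
at the places of prime norm, `k = 1`, are small at the scale `X`. On the critical line a *signed majorant* is then
available: the explicit formula with the weight `exp(-(log q - Y)² / 4 η Y)` shows that the positive coefficients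
together have at most the weight of the negative ones at prime squares, which is bounded by that of `[K : ℚ]` times
the prime squares, and the prime number theorem determines the Fourier transform of this majorant: it is
`[K : ℚ]/2` at the point `1/2` and `0` at `1/2 + i t`, `t ≠ 0`. A positive definite function is bounded by its value at
`0`; applied to the majorant minus the coefficients, and to finitely many points `1/2 + i γ_j`, where the explicit
formula sees minus the orders of `L^S(s, π, Ad)`, all of the same sign, this bounds the number of zeros in terms of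
`[K : ℚ]`: a contradiction, as there are arbitrarily high zeros. If there are zeros to the right of the line, prime
squares do not matter.
-/

set_option autoImplicit false

namespace Pool.Agent.Results.MP_08cfa9_nt.DegreeOnePlacesGL3

open NumberField IsDedekindDomain Pool.Agent.TH861.GL3
open Pool.Agent.TH949.TX (AdjointGL3 OffLine3)
open Pool.Agent.T2H30.DG (SplitsCompletely)

open scoped Classical in
/-- **Tempered places of prime norm at every scale.** -/
theorem result {K : Type} [Field K] [NumberField K] {S : Finset (HeightOneSpectrum (𝓞 K))} {α : PL S → Fin 3 → ℂ}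
    (h : AdjointGL3 α) {c lam : ℝ} (hc : c < 1 / 2 ∨ OffLine3 α c) (hlam : 0 < lam) :
    -- the sum of `max(0, 1 - |a_v|²)` over the places of prime norm in `[X^{1-λ}, X]`
    (∃ X₀ : ℝ, ∀ X : ℝ, X₀ ≤ X → X ^ c ≤ ∑' v : PL S,
      if (qq v.1).Prime ∧ X ^ (1 - lam) ≤ (qq v.1 : ℝ) ∧ (qq v.1 : ℝ) ≤ X then
        max 0 (1 - ‖∑ i, α v i‖ ^ 2) else 0) ∧
    -- the number of such places with `|a_v| < 1` and `π_v` tempered
    (∃ X₀ : ℝ, ∀ X : ℝ, X₀ ≤ X → X ^ c ≤
      (({v : PL S | (qq v.1).Prime ∧ X ^ (1 - lam) ≤ (qq v.1 : ℝ) ∧ (qq v.1 : ℝ) ≤ X ∧
        ‖∑ i, α v i‖ < 1 ∧ ∀ i, ‖α v i‖ = 1}.ncard : ℕ) : ℝ)) ∧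
    -- `K/F` Galois: a representation `Π` of `GL_3` over `F` or of `U_3(K/F)`, with Satake parameters `γ v` at the
    -- places `v` of `F` which split completely, and base change `π`
    ∀ (F : Type) [Field F] [NumberField F] [Algebra F K] [IsGalois F K] (γ : HeightOneSpectrum (𝓞 F) → Fin 3 → ℂ),
      (∀ w : PL S, SplitsCompletely K (w.1.under (𝓞 F)) →
        Multiset.map (α w) Finset.univ.val = Multiset.map (γ (w.1.under (𝓞 F))) Finset.univ.val ∨
        Multiset.map (α w) Finset.univ.val =
          Multiset.map (fun i => (γ (w.1.under (𝓞 F)) i)⁻¹) Finset.univ.val) →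
      ∃ X₀ : ℝ, ∀ X : ℝ, X₀ ≤ X → X ^ c ≤
        (({v : HeightOneSpectrum (𝓞 F) | (Ideal.absNorm v.asIdeal).Prime ∧
          X ^ (1 - lam) ≤ (Ideal.absNorm v.asIdeal : ℝ) ∧ (Ideal.absNorm v.asIdeal : ℝ) ≤ X ∧
          SplitsCompletely K v ∧ ‖∑ i, γ v i‖ < 1 ∧ ∀ i, ‖γ v i‖ = 1}.ncard : ℕ) : ℝ) := by
  refine ⟨?_, ?_, fun F _ _ _ _ γ hγ => ?_⟩
  · exact Filter.eventually_atTop.1 (Pool.Agent.T2H30.DG.prime_places h hc hlam)
  · exact Filter.eventually_atTop.1 (Pool.Agent.T2H30.DG.prime_count h hc hlam)
  · exact Filter.eventually_atTop.1 (Pool.Agent.T2H30.DG.prime_down h hc hlam hγ)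

end Pool.Agent.Results.MP_08cfa9_nt.DegreeOnePlacesGL3
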