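import Mathlib
import Pool.Agent.T2H30.IN.Main

/-!
# The group `R_{E/F} GL_2`: the Ramanujan conjecture at nine tenths of the inert places

Let `E/F` be a quadratic extension of number fields and `π` a unitary cuspidal automorphic representation of
`GL_2(𝔸_E)`, i.e. a (globally generic) cuspidal representation of the quasi-split group `R_{E/F} GL_2` over `F`; the
quasi-split groups `GSO_4`, `GSpin_4` attached to `E/F` have the same `L`-packets. At a place `v` of `F` which is inert
in `E` its component is `π_w`, `w` the place above `v`, with Satake parameters `α_{1,w}`, `α_{2,w}`. We show that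
`π_w` is **tempered at nine tenths of the inert places**, if the conjugate `π^σ` is not a twist of `π` and `Sym⁴ π` is
cuspidal and not isomorphic to a twist of its conjugate. (If `Sym⁴ π` is not cuspidal, `π` is known to be tempered
everywhere; if `π^σ` is a twist of `π`, one is reduced to representations of `GL_2(𝔸_F)` and known results.)

More precisely, for every `R ≥ 1` the inert places with `π_w` not tempered and `|α_{i,w}| ≥ R` for some `i` have upper
natural density, relative to the inert places, at most

  `V / (V + ((R + R⁻¹)² - 1 - n₂)²)`, `V = 1 + n₂ + n₄ - n₂²`,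

where `n₂`, resp. `n₄`, is the order of the pole at `s = 1` of `L(s, ρ, As^+)` minus the order of the pole of
`L(s, ρ, As^-)`, for `ρ = Sym² π ⊗ ω⁻¹`, resp. `ρ = Sym⁴ π ⊗ ω⁻²`. We have `n₂ = 0` unless `π^σ` is a twist of `π`, and
`n₄ = 0` unless `Sym⁴ π ⊗ ω⁻²` is isomorphic to its conjugate. For `n₂ = n₄ = 0` the bound is
`1 / (1 + ((R + R⁻¹)² - 1)²)`, which is `1 / 10` for `R = 1`; for `n₂ = 0` and arbitrary `n₄ ≤ 1` at least `9 / 11` of the
inert places are tempered. The densities are natural ones, in all intervals `X < N v ≤ (1 + η) X`, `η > 0` fixed,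
`X → ∞`; the inert places have density `1 / 2`.

The known density theorems for `GL_2` over `E` (Ramakrishnan: `π_w` is tempered at nine tenths of the places of `E`; Kim
and Shahidi: `34 / 35`) say nothing about the inert places, which have density zero in `E`, as `N w = (N v)²`; for the
same reason the Rankin-Selberg `L`-functions over `E` give no information.

The structure `CuspidalGL2` lists what is used of `π`; all of it is known: the local components are unitary; the Asai
`L`-functions over `F` of `Sym² π ⊗ ω⁻¹` (Gelbart-Jacquet) and of `Sym⁴ π ⊗ ω⁻²` (Kim) converge absolutely for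
`Re s > 1` (Landau's lemma, applied to the Asai `L`-functions of `π ⊠ π~` and of its tensor square, which have
nonnegative coefficients), have an analytic continuation and no zeros for `Re s ≥ 1` (Shahidi), and no poles there except
at `s = 1` (Goldberg, Grbac-Shahidi). The prime ideal theorem for `E` and `F` and the Wiener-Ikehara theorem are
proved.

The proof: `As^+` and `As^-` have the same trace at split places, and at an inert place `v` the traces `± tr ρ(Frob_w)`.
So one gets the mean values over the inert places of `tr ρ(Frob_w)`, for `ρ = 1, Sym² ⊗ ω⁻¹, Sym⁴ ⊗ ω⁻²`, hence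
those of `y` and `y²`, `y = |α_{1,w} + α_{2,w}|²`. The parameters of a nontempered `π_w` are `r u`, `r⁻¹ u`, `|u| = 1`,
so that `y = (r + r⁻¹)² > 4`, and the inequality of Cantelli gives the bound.
-/

set_option autoImplicit false

namespace Pool.Agent.Results.MP_08cfa9_nt.InertPlacesGL2

open NumberField IsDedekindDomain Pool.Agent.TH861.GL3
open Pool.Agent.T2H30.DN (LowerDensityGE)
open Pool.Agent.T2H30.IN (CuspidalGL2 UpperInert LowerInert InertIn above)

/-- **Cusp forms on `GL_2` over a quadratic extension at the inert places.** -/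
theorem result {F E : Type} [Field F] [NumberField F] [Field E] [NumberField E] [Algebra F E]
    (hEF : Module.finrank F E = 2) {S : Finset (HeightOneSpectrum (𝓞 F))}
    {α : HeightOneSpectrum (𝓞 E) → Fin 2 → ℂ} {p p' q q' : ℕ} (h : CuspidalGL2 S α p p' q q') :
    -- the inert places have density one half
    LowerDensityGE (fun v : PL S => InertIn E v.1) (1 / 2) ∧
    -- tempered at nine tenths of the inert places
    (p = p' → q = q' → LowerInert E (fun v : PL S => ∀ w ∈ above E v.1, ∀ i, ‖α w i‖ = 1) (9 / 10)) ∧
    -- the general case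
    (∀ n₂ n₄ V : ℝ, n₂ = (p : ℝ) - p' → n₄ = (q : ℝ) - q' → V = 1 + n₂ + n₄ - n₂ ^ 2 →
      LowerInert E (fun v : PL S => ∀ w ∈ above E v.1, ∀ i, ‖α w i‖ = 1) (1 - V / (V + (3 - n₂) ^ 2)) ∧
      ∀ R : ℝ, 1 ≤ R → UpperInert E (fun v : PL S => ∃ w ∈ above E v.1, ∃ i, ‖α w i‖ ≠ 1 ∧ R ≤ ‖α w i‖)
        (V / (V + ((R + R⁻¹) ^ 2 - 1 - n₂) ^ 2))) := by
  refine ⟨Pool.Agent.T2H30.IN.lower_inert hEF, Pool.Agent.T2H30.IN.main_nine hEF h, ?_⟩
  rintro n₂ n₄ V rfl rfl rfl
  exact ⟨Pool.Agent.T2H30.IN.main_lower hEF h, fun R hR => Pool.Agent.T2H30.IN.main_upper hEF h hR⟩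

end Pool.Agent.Results.MP_08cfa9_nt.InertPlacesGL2
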