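import Mathlib
import Pool.Agent.T2H30.DN.FinSp

/-!
# Generic cuspidal representations of `GL_4`: the size of the Satake parameters at a positive proportion of the places

Let `K` be a number field and `Π` a unitary cuspidal automorphic representation of `GL_4` over `K` (every such `Π` is
globally generic; for instance the lift of a globally generic cuspidal representation of `GSpin_6`, or the base change
of one of a quasi-split unitary group `U_4`), unramified outside the finite set `S` of finite places, with Satake
parameters `α_{i,v}`, `v ∉ S`. By Kim, `∧²Π` is an automorphic representation of `GL_6`, the isobaric sum of the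
`n_i τ_i`, `τ_i` cuspidal; let `m = ∑ n_i²`, so that `m = 1` iff `∧²Π` is cuspidal. We show:

1. For every `R > 1` the places with `|α_{i,v}| ≥ R` for some `i` have upper natural density at most

     `((R + R⁻¹ + √m) / (R² + R⁻²))²`.

   So if `∧²Π` is cuspidal, then for `R ≥ 1.7222` the natural density of the places at which **all** the Satake
   parameters satisfy `R⁻¹ < |α_{i,v}| < R` is positive (it is at least `0.7` for `R = 3`, and `1 - O(R⁻²)`).
   The inequality behind this is sharp: the infimum of the possible `R` is given by `R + R⁻¹ = (1 + √13) / 2`.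
2. The places at which all `α_{i,v}` are outside of the annulus `R⁻¹ < |z| < R`, and not of absolute value one, have
   upper natural density at most `m / (R² + R⁻²)²`, `R ≥ 1`.
3. At a set of places of lower natural density at least `1 - m / 4`, at least two of the four Satake parameters are of
   absolute value one: if `∧²Π` is cuspidal, `Π_v` is half tempered at three quarters of the places.

The densities are natural densities, uniformly in short intervals `X < N v ≤ (1 + η) X`, `η > 0` fixed, `X → ∞`.

Known before: infinitely many places with all `|α_{i,v}| ≤ 3 + 2 √2 = 5.83...` (Walji 2013). The Ramanujan conjecture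
says that all `|α_{i,v}|` are equal to one; for general `Π` on `GL_4` not even the existence of one such place is
known.

The structure `CuspidalGL4` lists what is used of `Π`, all of it is known: the local components are unitary (Jacquet,
Piatetski-Shapiro, Shalika), the Rankin-Selberg `L`-functions `L(s, Π × Π~)` and `L(s, ∧²Π × (∧²Π)~)` converge
absolutely for `Re s > 1` (Jacquet, Shalika), have an analytic continuation beyond `Re s = 1` except for a pole at
`s = 1` of order `1`, resp. `m`, and have no zeros on `Re s = 1` (Shahidi). What is used of the field `K` (the prime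
ideal theorem) and the Wiener-Ikehara theorem are proved.

The proof: let `a_v = ∑ α_{i,v}` and `b_v = ∑_{i<j} α_{i,v} α_{j,v}`. As `Π_v` is unitary, a parameter `R u`, `|u| = 1`,
`R ≠ 1`, comes with `R⁻¹ u`, and the product of the two others is of absolute value one. With `x = R + R⁻¹` this gives
`x u a_v - b_v = (x² - 1) u² - γ`, `|γ| = 1`, hence `x² - 2 ≤ x |a_v| + |b_v|`. The mean values of `|a_v|²` and
`|b_v|²` over the places are at most `1` and `m`.
-/

set_option autoImplicit false

namespace Pool.Agent.Results.MP_08cfa9_nt.SatakeDensityGL4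

open NumberField IsDedekindDomain Pool.Agent.TH861.GL3
open Pool.Agent.T2H30.DN (CuspidalGL4 UpperDensityLE LowerDensityGE)

/-- **The Satake parameters of cusp forms on `GL_4` at most of the places.** -/
theorem result {K : Type} [Field K] [NumberField K] {S : Finset (HeightOneSpectrum (𝓞 K))}
    {α : PL S → Fin 4 → ℂ} {m : ℕ} (h : CuspidalGL4 α m) :
    -- 1. the largest parameter
    (∀ R : ℝ, 1 < R →
      UpperDensityLE (fun v => ∃ i, R ≤ ‖α v i‖) (((R + R⁻¹ + √m) / (R ^ 2 + (R ^ 2)⁻¹)) ^ 2) ∧
      LowerDensityGE (fun v => ∀ i, R⁻¹ < ‖α v i‖ ∧ ‖α v i‖ < R)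
        (1 - ((R + R⁻¹ + √m) / (R ^ 2 + (R ^ 2)⁻¹)) ^ 2)) ∧
    (m = 1 → LowerDensityGE (fun v => ∀ i, (1.7222 : ℝ)⁻¹ < ‖α v i‖ ∧ ‖α v i‖ < 1.7222) (1 / 10000)) ∧
    -- 2. all parameters large or small
    (∀ R : ℝ, 1 ≤ R → UpperDensityLE (fun v => ∀ i, ‖α v i‖ ≠ 1 ∧ (R ≤ ‖α v i‖ ∨ ‖α v i‖ ≤ R⁻¹))
      ((m : ℝ) / (R ^ 2 + (R ^ 2)⁻¹) ^ 2)) ∧
    -- 3. two parameters of absolute value one
    LowerDensityGE (fun v => ∃ i j, i ≠ j ∧ ‖α v i‖ = 1 ∧ ‖α v j‖ = 1) (1 - (m : ℝ) / 4) :=
  ⟨fun _ hR => ⟨Pool.Agent.T2H30.DN.gl4_tail h hR, Pool.Agent.T2H30.DN.gl4_bounded' h hR⟩,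
    fun hm => Pool.Agent.T2H30.DN.gl4_17 (hm ▸ h),
    fun _ hR => Pool.Agent.T2H30.DN.gl4_second h hR, Pool.Agent.T2H30.DN.gl4_half h⟩

end Pool.Agent.Results.MP_08cfa9_nt.SatakeDensityGL4
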