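import Mathlib
import Pool.Agent.T2H30.DN.FinSp

/-!
# Generic cuspidal representations of `GSp_4`: small Satake parameters at a positive proportion of the places

Let `K` be a number field and `Π` a globally generic cuspidal automorphic representation of `GSp_4` (or of
`SO_5 = PGSp_4`) over `K` with unitary central character `w`. At a place `v` outside the finite set `S` it has the four
Satake parameters `α_{i,v} ∈ {z_1, z_2, w_v / z_1, w_v / z_2}`. We assume that the lift `Π_4` of `Π` to `GL_4` is
cuspidal (otherwise `Π` comes from `GL_2 × GL_2`). Let `Π_5` be the lift to `GL_5` attached to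
`GSp_4(ℂ) → SO_5(ℂ)`, and `m` the order of the pole of `L(s, Π_5 × Π_5)` at `s = 1`, so that `m = 1` iff `Π_5` is cuspidal
(the other `Π` come from `GL_2` over `K` or over a quadratic extension). We show:

1. If `m = 1`, the places at which **all** the Satake parameters satisfy `|α_{i,v}|, |α_{i,v}|⁻¹ < 1.34` have lower
   natural density at least `1 / 250`. More generally, for all `m`, `R > 1`, `l > 0` and `-1 ≤ t ≤ 3` the places at
   which this fails, with `R` instead of `1.34`, have upper natural density at most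

     `(l + m + t²) / min (l (X - 1 - t)² / (X + l), (X - 3 + t)²)`, `X = (R + R⁻¹)²`.

2. A nontempered `Π_v` has real exponents, i.e. a parameter `α_{i,v} = r w_v^{1/2}`, `r` real, `|r| > 1`, or four
   parameters `r^{±1} e^{± i φ} w_v^{1/2}`. If `m = 1`, then at a set of places of lower natural density at least `2 / 7`
   `Π_v` is tempered or of the second type. In general the places of the first type with `r ≥ R` have upper
   natural density at most `((R + R⁻¹ + √(m + s²)) / ((R + R⁻¹)² - 1 + s))²`, for every real `s > 1 - (R + R⁻¹)²`.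
3. The places of the second type with `r ≥ R` have upper natural density at most `m / (m + ((R + R⁻¹)² - 3)²)`, `R ≥ 1`.
4. At a set of places of lower natural density at least `(3 - m) / 4`, i.e. `1 / 2` if `m = 1`, at least two of the four
   Satake parameters are of absolute value one.

The densities are natural densities, uniformly in short intervals `X < N v ≤ (1 + η) X`, `η > 0` fixed, `X → ∞`.

The Ramanujan conjecture says that all `|α_{i,v}|` are equal to one; for `GSp_4` not even the existence of one such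
unramified place is known for general `Π`. Known before: the bounds towards the conjecture for `GL_4`, which are powers
of `N v`, and infinitely many places with all `|α_{i,v}| ≤ 3 + 2 √2` (Walji 2013, for `GL_4`). The starting results of
this problem on `GL_n` give places with a small trace, which is no restriction for the size of the parameters if
`n = 4`.

The structure `GenericGSp4` lists what is used of `Π`, all of it is known: the local components are unitary; the
`L`-functions `L(s, Π_4 × Π_4~)`, `L(s, Π_5)` and `L(s, Π_5 × Π_5)` (Rankin-Selberg `L`-functions of `GL_n`, by the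
lifts of Asgari and Shahidi and of Kim) converge absolutely for `Re s > 1`, have an analytic continuation beyond
`Re s = 1` except for a pole at `s = 1` of order `1`, `0` and `m`, and have no zeros on `Re s = 1` (Jacquet, Shalika;
Shahidi). What is used of the field `K` (the prime ideal theorem) and the Wiener-Ikehara theorem are proved.

The proof: after division by `w_v^{1/2}`, let `x = z_1 + z_1⁻¹`, `y = z_2 + z_2⁻¹`. The traces of `Π_v` in the
representations of dimension `4` and `5` are `a = x + y` and `c = 1 + x y`; either `x` and `y` are real or `y` is the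
conjugate of `x`. In the first case `x² - 1 - t = x a - (c + t)`, in the second one `c ≥ 1 + (r - r⁻¹)²`. The mean
value of `l a² + (c + t)²` over the places is at most `l + m + t²`.
-/

set_option autoImplicit false

namespace Pool.Agent.Results.MP_08cfa9_nt.SatakeDensityGSp4

open NumberField IsDedekindDomain Pool.Agent.TH861.GL3
open Pool.Agent.T2H30.DN (GenericGSp4 UpperDensityLE LowerDensityGE spin)

/-- **The Satake parameters of generic cusp forms on `GSp_4` at most of the places.** -/
theorem result {K : Type} [Field K] [NumberField K] {S : Finset (HeightOneSpectrum (𝓞 K))}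
    {z : PL S → Fin 2 → ℂ} {w : PL S → ℂ} {m : ℕ} (h : GenericGSp4 z w m) :
    -- 1. the largest parameter
    (∀ R l t : ℝ, 1 < R → 0 < l → -1 ≤ t → t ≤ 3 →
      UpperDensityLE (fun v => ∃ i, R ≤ ‖spin (z v) (w v) i‖) ((l + m + t ^ 2) /
        min (l * ((R + R⁻¹) ^ 2 - 1 - t) ^ 2 / ((R + R⁻¹) ^ 2 + l)) (((R + R⁻¹) ^ 2 - 3 + t) ^ 2)) ∧
      LowerDensityGE (fun v => ∀ i, R⁻¹ < ‖spin (z v) (w v) i‖ ∧ ‖spin (z v) (w v) i‖ < R) (1 - (l + m + t ^ 2) /
        min (l * ((R + R⁻¹) ^ 2 - 1 - t) ^ 2 / ((R + R⁻¹) ^ 2 + l)) (((R + R⁻¹) ^ 2 - 3 + t) ^ 2))) ∧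
    (m = 1 → LowerDensityGE (fun v => ∀ i, (1.34 : ℝ)⁻¹ < ‖spin (z v) (w v) i‖ ∧ ‖spin (z v) (w v) i‖ < 1.34)
      (1 / 250)) ∧
    -- 2. real exponents
    (∀ R s : ℝ, 1 ≤ R → 0 < (R + R⁻¹) ^ 2 - 1 + s →
      UpperDensityLE (fun v => ∃ i, ∃ r : ℝ, 1 < r ∧ R ≤ r ∧ spin (z v) (w v) i ^ 2 = (r : ℂ) ^ 2 * w v)
        (((R + R⁻¹ + √(m + s ^ 2)) / ((R + R⁻¹) ^ 2 - 1 + s)) ^ 2)) ∧
    (m = 1 → LowerDensityGE (fun v => ¬ ∃ i, ∃ r : ℝ, 1 < r ∧ spin (z v) (w v) i ^ 2 = (r : ℂ) ^ 2 * w v) (2 / 7)) ∧
    -- 3. exponents which are not real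
    (∀ R : ℝ, 1 ≤ R → UpperDensityLE (fun v => ∃ i, 1 < ‖spin (z v) (w v) i‖ ∧ R ≤ ‖spin (z v) (w v) i‖ ∧
      ¬ ∃ r : ℝ, spin (z v) (w v) i ^ 2 = (r : ℂ) ^ 2 * w v) ((m : ℝ) / (m + ((R + R⁻¹) ^ 2 - 3) ^ 2))) ∧
    -- 4. two parameters of absolute value one
    LowerDensityGE (fun v => ∃ i j, i ≠ j ∧ ‖spin (z v) (w v) i‖ = 1 ∧ ‖spin (z v) (w v) j‖ = 1)
      ((3 - (m : ℝ)) / 4) :=
  ⟨fun _ _ _ hR hl h1 h2 => ⟨Pool.Agent.T2H30.DN.sp_tail h hR hl h1 h2, Pool.Agent.T2H30.DN.sp_bounded h hR hl h1 h2⟩,
    fun hm => Pool.Agent.T2H30.DN.sp_134 (hm ▸ h), fun _ _ hR hs => Pool.Agent.T2H30.DN.sp_real h hR hs,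
    fun hm => Pool.Agent.T2H30.DN.sp_27 (hm ▸ h), fun _ hR => Pool.Agent.T2H30.DN.sp_nonreal h hR,
    Pool.Agent.T2H30.DN.sp_half h⟩

end Pool.Agent.Results.MP_08cfa9_nt.SatakeDensityGSp4
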